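import Mathlib
import Pool.Agent.AXE.PCtx

/-!
# Ax-Schanuel over a function field for divisors on products of hyperelliptic Jacobians with
semisimple Gauss-Manin connection
-/

set_option autoImplicit false
set_option linter.unusedSectionVars false

namespace Pool.Agent.Results.MP_c99e65_ag.HyperellipticProducts

open Polynomial Matrix Pool.Agent.AXE

/-- the field generated over `K` by the entries of the period matrices -/
def periodField {F : Type} [Field F] (K : Subfield F) {n : ℕ} {g : Fin n → ℕ}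
    (Φ : ∀ i, Matrix (Fin (2 * g i)) (Fin (2 * g i)) F) : Subfield F :=
  Subfield.closure ((K : Set F) ∪ {z | ∃ i a b, z = Φ i a b})

/-- Ax-Schanuel for products of hyperelliptic Jacobians and divisors with (at least) one point
for each factor which is transcendental over the field generated by the other points. -/
theorem result (F : Type) [Field F] [CharZero F] (d : Derivation ℤ F F) (K : Subfield F)
    (hK : ∀ a ∈ K, d a ∈ K) (hC : ∀ a, d a = 0 → a ∈ K) (hAC : IsAlgClosed (constants d))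
    (n : ℕ) (g m : Fin n → ℕ) (f : Fin n → F[X])
    (A : ∀ i, Matrix (Fin (2 * g i)) (Fin (2 * g i)) F) (ρ : ∀ i, Fin (2 * g i) → F[X])
    (hGM : ∀ i, GaussManin d K (g i) (f i) (A i) (ρ i))
    (hss : SemisimpleOver d (algebraicClosure K F).toSubfield (Matrix.blockDiagonal' A))
    (Φ : ∀ i, Matrix (Fin (2 * g i)) (Fin (2 * g i)) F)
    (hΦ : ∀ i, (Φ i).map d = A i * Φ i) (hdet : ∀ i, (Φ i).det ≠ 0)
    (hexp : NoExponential d K (periodField K Φ))
    (w : ∀ i, Fin (m i) → ℤ) (X Y : ∀ i, Fin (m i) → F) (hY : ∀ i p, Y i p ≠ 0)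
    (hXY : ∀ i p, Y i p ^ 2 = (f i).eval (X i p))
    (x : ∀ i, Fin (2 * g i) → F) (hx : ∀ i, IsLog d (A i) (ρ i) (w i) (X i) (Y i) (x i))
    (p : ∀ i, Fin (m i)) (hw : ∀ i, w i (p i) ≠ 0)
    (hp : ∀ i, Transcendental (IntermediateField.adjoin K
      {z | ∃ q : (Σ i, Fin (m i)), q ≠ ⟨i, p i⟩ ∧ z = X q.1 q.2}) (X i (p i))) :
    2 * ((∑ i, g i : ℕ) : Cardinal) ≤ Algebra.trdeg (periodField K Φ)
      (IntermediateField.adjoin (periodField K Φ)
        ({z | ∃ i l, z = x i l} ∪ {z | ∃ i q, z = X i q ∨ z = Y i q})) := by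
  classical
  let c : ∀ i, JCtx d K (g i) (Fin (2 * g i)) (Fin (m i)) := fun i =>
    { hK := hK, hC := hC, f := f i, A := A i, ρ := ρ i, hGM := hGM i, Φ := Φ i, Ψ := (Φ i)⁻¹
      ΨΦ := Matrix.nonsing_inv_mul _ (isUnit_iff_ne_zero.2 (hdet i))
      ΦΨ := Matrix.mul_nonsing_inv _ (isUnit_iff_ne_zero.2 (hdet i))
      hΦ := hΦ i, n := w i, X := X i, Y := Y i, hY := hY i, hXY := hXY i, x := x i, hx := hx i }
  let e := prodCtx c hK hC
  have hcl : (algebraicClosure K F).toSubfield = cl (K : Set F) := by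
    ext z
    rw [mem_cl_iff]
    exact mem_algebraicClosure_iff
  rw [hcl] at hss
  have hgen : Subfield.closure e.gen = periodField K Φ := by
    refine le_antisymm (Subfield.closure_le.2 ?_) (Subfield.closure_le.2 ?_)
    · rintro s (hs | ⟨a, b, rfl⟩)
      · exact Subfield.subset_closure (Or.inl hs)
      · change Matrix.blockDiagonal' Φ a b ∈ _
        rw [Matrix.blockDiagonal'_apply]
        split_ifs with h
        · exact Subfield.subset_closure (Or.inr ⟨_, _, _, rfl⟩)
        · exact Subfield.zero_mem _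
    · rintro s (hs | ⟨i, a, b, rfl⟩)
      · exact Subfield.subset_closure (Or.inl hs)
      · refine Subfield.subset_closure (Or.inr ⟨⟨i, a⟩, ⟨i, b⟩, ?_⟩)
        exact (Matrix.blockDiagonal'_apply_eq Φ i a b).symm
  have hexp' : NoExponential d K (Subfield.closure e.gen) := by
    rw [hgen]
    exact hexp
  obtain ⟨W, h1, -, ⟨v, -, h3⟩, h4⟩ := e.main hss hexp'
    ({z | ∃ i l, z = x i l} ∪ {z | ∃ i q, z = X i q ∨ z = Y i q})
    (fun s => Or.inl ⟨s.1, s.2, rfl⟩) (fun z hz => Or.inr hz)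
  have hW : W = ⊥ := by
    rw [Submodule.eq_bot_iff]
    intro γ hγ
    funext s
    exact prod_component c s.1 (p s.1) (hw s.1) (notMem_cl (hp s.1)) γ (h1 γ hγ)
      (∑ s, γ s * (e.x s - (e.Φ *ᵥ v) s)) (fun D hD => h3 γ hγ D hD) s.2
  rw [hW, rank_bot, add_zero, hgen] at h4
  have h5 : Fintype.card (Σ i, Fin (2 * g i)) = 2 * ∑ i, g i := by
    rw [Fintype.card_sigma, Finset.mul_sum]
    exact Finset.sum_congr rfl (fun i _ => Fintype.card_fin _)
  rw [h5] at h4
  push_cast at h4 ⊢
  exact h4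

end Pool.Agent.Results.MP_c99e65_ag.HyperellipticProducts
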