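import Mathlib
import Pool.Agent.AXE.KPoint

/-!
# Ax-Schanuel over a function field for abelian varieties with irreducible Gauss-Manin connection
-/

set_option autoImplicit false
set_option linter.unusedSectionVars false

namespace Pool.Agent.Results.MP_c99e65_ag.IrreducibleAbelian

open Matrix Pool.Agent.AXE

/-- the field generated over `K` by the entries of the period matrix -/
def periodField {F : Type} [Field F] (K : Subfield F) {N : ℕ}
    (Φ : Matrix (Fin N) (Fin N) F) : Subfield F :=
  Subfield.closure ((K : Set F) ∪ {z | ∃ a b, z = Φ a b})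

/-- Ax-Schanuel for abelian varieties whose Gauss-Manin connection is irreducible over the
algebraic closure of `K` in `F`. -/
theorem result (F : Type) [Field F] [CharZero F] (d : Derivation ℤ F F) (K : Subfield F)
    (hK : ∀ a ∈ K, d a ∈ K) (hC : ∀ a, d a = 0 → a ∈ K) (hAC : IsAlgClosed (constants d))
    (g N B : ℕ) (R : Type) [CommRing R] [Algebra K R] (c : AbelianChart d K hK g N B R)
    (hirr : IrredOver d (algebraicClosure K F).toSubfield (c.A.map (algebraMap K F)))
    (Φ : Matrix (Fin (2 * g)) (Fin (2 * g)) F) (hΦ : Φ.map d = c.A.map (algebraMap K F) * Φ)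
    (hdet : Φ.det ≠ 0) (y : R →ₐ[K] F) (hy : ∃ a, y (c.t a) ≠ 0)
    (x : Fin (2 * g) → F) (hx : ∀ i, d (x i) = ∑ j, (c.A i j : F) * x j + c.dlog y i) :
    2 * (g : Cardinal) ≤ Algebra.trdeg (periodField K Φ)
        (IntermediateField.adjoin (periodField K Φ) (Set.range x ∪ Set.range y)) ∨
      ((∀ s, IsAlgebraic K (y s)) ∧ ∃ v : Fin (2 * g) → F, (∀ j, d (v j) = 0) ∧
        ∀ i, IsAlgebraic K (x i - (Φ *ᵥ v) i)) := by
  classical
  let e : ACtx d K (2 * g) (Fin (2 * g)) :=
    { hK := hK
      hC := hC
      A := c.A.map (algebraMap K F)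
      hA := fun i j => (c.A i j).2
      Φ := Φ
      Ψ := Φ⁻¹
      ΨΦ := Matrix.nonsing_inv_mul _ (isUnit_iff_ne_zero.2 hdet)
      ΦΨ := Matrix.mul_nonsing_inv _ (isUnit_iff_ne_zero.2 hdet)
      hΦ := hΦ
      ω := c.val y
      ω_add := c.val_add y
      ω_smul := c.val_smul y
      closed := fun T T' hT hT' i => c.val_closed y hT hT' i
      r := c.dlog y
      gm := fun T hT i => c.val_gm y hT i
      x := x
      hx := hx
      V := Set.range y
      zero := fun T _ hV i => c.val_zero y (fun s => hV _ ⟨s, rfl⟩) i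
      point := fun k1 hk1 h hT => by
        refine hol_base_gen k1 (Set.range y) (fun a => y (c.t a)) hy (fun b => ⟨_, rfl⟩)
          (ι := Fin g) (fun i T => c.val y T ⟨i, by omega⟩) (fun i a T => ?_)
          (fun i a ha T hT' => ?_) (fun T _ hV i => ?_) (fun T hT' h0 => ?_)
          (fun i => h ⟨i, by omega⟩) (fun T hT' i => hT T hT' _)
        · exact c.val_smul y a T _
        · have h1 := c.val_regular y ⟨i, by omega⟩ i.2 a ha
            (fun s hs => hT' s (hk1 hs))
          have hle : ∀ s ∈ Algebra.adjoin K (Set.range fun b => y (c.t b) / y (c.t a)),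
              s ∈ Algebra.adjoin k1 (Set.range fun b => y (c.t b) / y (c.t a)) := by
            intro s hs
            induction hs using Algebra.adjoin_induction with
            | mem x hx => exact Algebra.subset_adjoin hx
            | algebraMap r => exact Subalgebra.algebraMap_mem _ (⟨r.1, hk1 r.2⟩ : k1)
            | add x y _ _ hx hy => exact add_mem hx hy
            | mul x y _ _ hx hy => exact mul_mem hx hy
          refine (AddSubgroup.closure_mono ?_) h1
          rintro z ⟨s, hs, s', hs', rfl⟩
          exact ⟨s, hle s hs, s', hle s' hs', rfl⟩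
        · exact c.val_zero y (fun s => hV _ ⟨s, rfl⟩) _
        · rintro _ ⟨s, rfl⟩
          exact c.val_generate y (fun s hs => hT' s (hk1 hs)) (fun i hi => h0 ⟨i, hi⟩) s }
  have hcl : (algebraicClosure K F).toSubfield = cl (K : Set F) := by
    ext z
    rw [mem_cl_iff]
    exact mem_algebraicClosure_iff
  rw [hcl] at hirr
  have h1 := e.main hirr (Set.range x ∪ Set.range y) (fun i => Or.inl ⟨i, rfl⟩)
    (fun v hv => Or.inr hv)
  rw [Fintype.card_fin] at h1
  rcases h1 with h1 | ⟨h1, u0, hu0, h2⟩
  · left
    push_cast at h1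
    exact h1
  · exact Or.inr ⟨fun s => mem_cl_iff.1 (h1 _ ⟨s, rfl⟩), u0, hu0, fun i => mem_cl_iff.1 (h2 i)⟩

end Pool.Agent.Results.MP_c99e65_ag.IrreducibleAbelian
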