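import Mathlib
import Pool.Agent.AXE.KDefect

/-!
# Ax-Schanuel over a function field for closed forms with a semisimple Gauss-Manin connection
-/

set_option autoImplicit false
set_option linter.unusedSectionVars false

namespace Pool.Agent.Results.MP_c99e65_ag.SemisimpleConnections

open Matrix Pool.Agent.AXE

/-- the field generated over `K` by the entries of the period matrix -/
def periodField {F : Type} [Field F] (K : Subfield F) {n : ℕ}
    (Φ : Matrix (Fin n) (Fin n) F) : Subfield F :=
  Subfield.closure ((K : Set F) ∪ {z | ∃ a b, z = Φ a b})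

/-- Ax-Schanuel for forms whose Gauss-Manin connection is semisimple over the algebraic closure of
`K` in `F` and whose periods generate no exponentials. -/
theorem result (F : Type) [Field F] [CharZero F] (d : Derivation ℤ F F) (K : Subfield F)
    (hK : ∀ a ∈ K, d a ∈ K) (hC : ∀ a, d a = 0 → a ∈ K) (hAC : IsAlgClosed (constants d))
    (n N B : ℕ) (R : Type) [CommRing R] [Algebra K R] (c : FormChart d K hK n B R)
    (hss : SemisimpleOver d (algebraicClosure K F).toSubfield (c.A.map (algebraMap K F)))
    (Φ : Matrix (Fin n) (Fin n) F) (hΦ : Φ.map d = c.A.map (algebraMap K F) * Φ)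
    (hdet : Φ.det ≠ 0) (hexp : NoExponential d K (periodField K Φ))
    (t : Fin (N + 1) → R) (y : R →ₐ[K] F) (hy : ∃ a, y (t a) ≠ 0)
    (x : Fin n → F) (hx : ∀ i, d (x i) = ∑ j, (c.A i j : F) * x j + c.dlog y i) :
    ∃ (W : Submodule (algebraicClosure K F).toSubfield (Fin n → F)) (v : Fin n → F),
      IsDefect c t y Φ x W v ∧
      (n : Cardinal) ≤ Algebra.trdeg (periodField K Φ)
        (IntermediateField.adjoin (periodField K Φ) (Set.range x ∪ Set.range y)) +
          Module.rank (algebraicClosure K F).toSubfield W :=
  exists_defect c y hC hAC hss Φ hΦ hdet hexp t hy x hx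

end Pool.Agent.Results.MP_c99e65_ag.SemisimpleConnections
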